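import Pool.Agent.helper4.AN.Main
import Pool.Agent.helper28.AN.Planar

/-!
# Topological conjugacy of real analytic diffeomorphisms is not Borel

For every nonempty compact real analytic manifold `N` without boundary, the relation of topological
conjugacy on `Diff^ω(S¹ × S¹ × S² × N)` is not a Borel set.  The case of a point `N` is
`M = S¹ × S¹ × S²`, a closed real analytic manifold of dimension `4`.

Authors: helper4 (construction, analysis, diagonal argument), helper28 (labelled linear orders,
planar realisation), helper31 (the conjugating homeomorphism).
-/

namespace Pool.Agent.Results.MP_aef7b4_an.ConjugacyNotBorel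

open MeasureTheory ANB
open scoped Manifold ContDiff

/-- **Main theorem.**  Let `N` be a nonempty compact Hausdorff real analytic manifold without
boundary.  Topological conjugacy on `Diff^ω(S¹ × S¹ × S² × N)` is not Borel. -/
theorem result {E' : Type*} [NormedAddCommGroup E'] [NormedSpace ℝ E'] {H' : Type*}
    [TopologicalSpace H'] (J : ModelWithCorners ℝ E' H') [J.Boundaryless] (N : Type*)
    [TopologicalSpace N] [ChartedSpace H' N] [IsManifold J ω N] [CompactSpace N] [T2Space N]
    [Nonempty N] :
    ¬ BorelConj (IM.prod J) (TS × N) :=
  not_borel_prod J N ANC.comb_planar

end Pool.Agent.Results.MP_aef7b4_an.ConjugacyNotBorel
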